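import Pool.Agent.H233R3.SC_TA
import Pool.Agent.H753R3.SC.Final2
import Pool.Agent.H753R3.SC.R
import Pool.Agent.H753R3.SC.C2
import Pool.Agent.H753R3.SC.N
import Pool.Agent.H753R3.SC.Q

set_option autoImplicit false

namespace Pool.Agent.Results.MP_dd23d5_gt.SmallTraces

/-- Let `P` be a dcpo whose Scott space is locally compact.  Suppose that every point `x` of every
open set `U` is interior to the upper closure of some set `E ⊆ U` whose traces on all principal
ideals have cardinality at most `μ`, where `μ` is countable or smaller than the pseudo-intersection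
number.  Then the Scott space of `P` is sober, and `P` is quasicontinuous: the set `E` can be
chosen finite. -/
theorem result (P : Type) [PartialOrder P] [TopologicalSpace P] [Topology.IsScott P Set.univ]
    (hdcpo : ∀ d : Set P, d.Nonempty → DirectedOn (· ≤ ·) d → ∃ x, IsLUB d x)
    [LocallyCompactSpace P]
    (hgen : ∀ U : Set P, IsOpen U → ∀ x ∈ U, ∃ E ⊆ U, ∃ μ : Cardinal.{0},
      (μ ≤ Cardinal.aleph0 ∨ μ < Pool.Agent.H753R3.SC.pnum) ∧
      x ∈ interior {y : P | ∃ e ∈ E, e ≤ y} ∧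
      ∀ z, Cardinal.mk (E ∩ Set.Iic z : Set P) ≤ μ) :
    QuasiSober P ∧ T0Space P ∧ ∀ U : Set P, IsOpen U → ∀ x ∈ U,
      ∃ H ⊆ U, H.Finite ∧ x ∈ interior {y : P | ∃ h ∈ H, h ≤ y} :=
  Pool.Agent.H753R3.SC.final2 Pool.Agent.H233R3.SC.taskA Pool.Agent.H753R3.SC.taskN'
    Pool.Agent.H753R3.SC.taskQ' (Pool.Agent.H753R3.SC.taskC2' Pool.Agent.H753R3.SC.taskR')
    P hdcpo hgen

end Pool.Agent.Results.MP_dd23d5_gt.SmallTraces
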