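import Mathlib

set_option autoImplicit false

/-!
# Locally compact Scott spaces of well-founded dcpos are sober

If `P` is a dcpo (of any cardinality) without infinite strictly descending sequences whose Scott
space is locally compact, then `P` is quasicontinuous and its Scott space is sober.
-/

namespace Pool.Agent.Results.MP_dd23d5_gt.WellFoundedDcpo

universe u

open Topology Set

variable {P : Type u} [PartialOrder P] [TopologicalSpace P] [Topology.IsScott P Set.univ]

/-- The sequence lemma: in a Scott space, for a sequence in a compact set `K` and an open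
`V ⊇ K`, some element of `V` is below infinitely many terms. -/
theorem seq_lemma {K V : Set P} (hK : IsCompact K) (hV : IsOpen V) (hKV : K ⊆ V)
    (w : ℕ → P) (hw : ∀ n, w n ∈ K) (hfin : ∀ q ∈ V, {n | q ≤ w n}.Finite) : False := by
  have hVu : IsUpperSet V := Topology.IsScott.isUpperSet_of_isOpen (D := Set.univ) hV
  let B : ℕ → Set P := fun N => {x | x ∈ V → ∃ n, N ≤ n ∧ x ≤ w n}
  have hB : ∀ N, IsClosed (B N) := by
    intro N
    rw [Topology.IsScott.isClosed_iff_isLowerSet_and_dirSupClosed]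
    refine ⟨?_, ?_⟩
    · intro x y hyx hx hy
      obtain ⟨n, hn, h⟩ := hx (hVu hyx hy)
      exact ⟨n, hn, hyx.trans h⟩
    · intro d hdB hd hdir a ha haV
      by_contra hcon
      push Not at hcon
      have h1 : (d ∩ V).Nonempty := by
        by_contra h2
        have h3 : d ⊆ Vᶜ := by
          intro x hx hxV
          exact h2 ⟨x, hx, hxV⟩
        have h4 : IsClosed (Vᶜ) := hV.isClosed_compl
        rw [Topology.IsScott.isClosed_iff_isLowerSet_and_dirSupClosed] at h4
        exact h4.2 h3 hd hdir ha haV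
      obtain ⟨x0, hx0, hx0V⟩ := h1
      have h5 : ∀ n, ∃ y ∈ d, N ≤ n → ¬ y ≤ w n := by
        intro n
        by_contra h6
        push Not at h6
        by_cases hN : N ≤ n
        · exact hcon n hN (ha.2 fun y hy => (h6 y hy).2)
        · exact hN (h6 x0 hx0).1
      choose y hyd hyn using h5
      have hS : {n | x0 ≤ w n}.Finite := hfin x0 hx0V
      have h7 : ∃ z ∈ d, x0 ≤ z ∧ ∀ n ∈ hS.toFinset, y n ≤ z := by
        induction hS.toFinset using Finset.induction_on with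
        | empty => exact ⟨x0, hx0, le_rfl, by simp⟩
        | insert a s has ih =>
          obtain ⟨z, hz, hz0, hzs⟩ := ih
          obtain ⟨z', hz', h8, h9⟩ := hdir z hz (y a) (hyd a)
          refine ⟨z', hz', hz0.trans h8, ?_⟩
          intro n hn
          rcases Finset.mem_insert.1 hn with rfl | hn
          · exact h9
          · exact (hzs n hn).trans h8
      obtain ⟨z, hz, hz0, hzs⟩ := h7
      obtain ⟨n, hn, hzn⟩ := hdB hz (hVu hz0 hx0V)
      exact hyn n hn ((hzs n (by simpa using hz0.trans hzn)).trans hzn)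
  have hcov : K ⊆ ⋃ N, (B N)ᶜ := by
    intro x hx
    obtain ⟨M, hM⟩ := (hfin x (hKV hx)).bddAbove
    refine mem_iUnion.2 ⟨M + 1, ?_⟩
    intro hxB
    obtain ⟨n, hn, hxn⟩ := hxB (hKV hx)
    have := hM hxn
    omega
  have hmono : Directed (· ⊆ ·) (fun N => (B N)ᶜ) := by
    refine (monotone_nat_of_le_succ ?_).directed_le
    intro N
    refine compl_subset_compl.2 ?_
    intro x hx hxV
    obtain ⟨n, hn, h⟩ := hx hxV
    exact ⟨n, by omega, h⟩
  obtain ⟨N, hN⟩ := hK.elim_directed_cover _ (fun N => (hB N).isOpen_compl) hcov hmono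
  exact hN (hw N) (fun _ => ⟨N, le_rfl, le_rfl⟩)

/-- The elements above a common lower bound, in `L`, with `g`. -/
def H (g : P) (L : Set P) : Set P := {w | ∃ x ∈ L, x ≤ w ∧ x ≤ g}

theorem step [LocallyCompactSpace P] (W : Ultrafilter P) {L V S : Set P} (hL : IsCompact L)
    (hV : IsOpen V) (hLV : L ⊆ V) (hS : S ∈ W) (h : P → P) (hh : ∀ w ∈ S, h w ∈ L ∧ h w ≤ w) :
    ∃ w ∈ S, ∃ L', IsCompact L' ∧ L' ⊆ V ∧ H (h w) L' ∈ W := by
  obtain ⟨L', hL', h1, h2⟩ := exists_compact_between hL hV hLV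
  by_contra hcon
  push Not at hcon
  obtain ⟨f, hf, hr⟩ := exists_seq_of_forall_finset_exists (fun w => w ∈ S)
    (fun x y => y ∉ H (h x) L') (by
      intro s hs
      have h3 : ∀ x ∈ s, (H (h x) L')ᶜ ∈ W := by
        intro x hx
        exact Ultrafilter.compl_mem_iff_notMem.2 (hcon x (hs x hx) L' hL' h2)
      have h4 : (⋂ x ∈ s, (H (h x) L')ᶜ) ∈ (W : Filter P) :=
        (Filter.biInter_finset_mem s).2 h3
      obtain ⟨y, hy⟩ := W.nonempty_of_mem (Filter.inter_mem hS h4)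
      refine ⟨y, hy.1, ?_⟩
      intro x hx
      exact (mem_iInter₂.1 hy.2 x hx))
  refine seq_lemma hL isOpen_interior h1 (fun n => h (f n)) (fun n => (hh _ (hf n)).1) ?_
  intro q hq
  refine Set.Subsingleton.finite ?_
  have key : ∀ m n, m < n → q ≤ h (f m) → q ≤ h (f n) → False := by
    intro m n hmn hm hn
    exact hr m n hmn ⟨q, interior_subset hq, hn.trans (hh _ (hf n)).2, hm⟩
  intro m hm n hn
  rcases lt_trichotomy m n with h5 | h5 | h5
  · exact (key m n h5 hm hn).elim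
  · exact h5
  · exact (key n m h5 hn hm).elim

/-- Every ultrafilter on a compact `K` inside an open `V` contains `Ici q` for some `q ∈ V`. -/
theorem ultra [LocallyCompactSpace P] (hP : WellFoundedLT P) {K V : Set P}
    (hK : IsCompact K) (hV : IsOpen V) (hKV : K ⊆ V) (W : Ultrafilter P) (hKW : K ∈ W) :
    ∃ q ∈ V, Ici q ∈ W := by
  by_contra hcon
  push Not at hcon
  let T : Set P := {g | ∃ L, IsCompact L ∧ L ⊆ V ∧ H g L ∈ W}
  have hT : T.Nonempty := by
    obtain ⟨w, hw, L', h1, h2, h3⟩ := step W hK hV hKV hKW id (fun w hw => ⟨hw, le_rfl⟩)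
    exact ⟨w, L', h1, h2, h3⟩
  obtain ⟨g, ⟨L, hL, hLV, hH⟩, hmin⟩ := hP.wf.has_min T hT
  have hgV : g ∈ V := by
    obtain ⟨w, x, hx, _, hxg⟩ := W.nonempty_of_mem hH
    exact Topology.IsScott.isUpperSet_of_isOpen (D := Set.univ) hV hxg (hLV hx)
  have hg : (Ici g)ᶜ ∈ W := Ultrafilter.compl_mem_iff_notMem.2 (hcon g hgV)
  have h1 : ∀ w : P, ∃ x, w ∈ H g L → x ∈ L ∧ x ≤ w ∧ x ≤ g := by
    intro w
    by_cases hw : w ∈ H g L
    · obtain ⟨x, hx⟩ := hw
      exact ⟨x, fun _ => hx⟩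
    · exact ⟨w, fun h => (hw h).elim⟩
  choose h hh using h1
  obtain ⟨w, hw, L', h2, h3, h4⟩ := step W hL hV hLV (Filter.inter_mem hH hg) h
    (fun w hw => ⟨(hh w hw.1).1, (hh w hw.1).2.1⟩)
  refine hmin (h w) ⟨L', h2, h3, h4⟩ ?_
  refine lt_of_le_of_ne (hh w hw.1).2.2 ?_
  intro h5
  refine hw.2 ?_
  have := (hh w hw.1).2.1
  rw [h5] at this
  exact this

/-- Compact sets inside an open `V` are covered by finitely many principal upper sets. -/
theorem finite_cover [LocallyCompactSpace P] (hP : WellFoundedLT P) {K V : Set P}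
    (hK : IsCompact K) (hV : IsOpen V) (hKV : K ⊆ V) :
    ∃ F : Set P, F.Finite ∧ F ⊆ V ∧ K ⊆ {y | ∃ q ∈ F, q ≤ y} := by
  by_contra hcon
  push Not at hcon
  let f : {F : Set P // F.Finite ∧ F ⊆ V} → Filter P :=
    fun F => Filter.principal (K ∩ {y | ∃ q ∈ F.1, q ≤ y}ᶜ)
  have : Nonempty {F : Set P // F.Finite ∧ F ⊆ V} := ⟨⟨∅, finite_empty, empty_subset _⟩⟩
  have hd : Directed (· ≥ ·) f := by
    intro F G
    refine ⟨⟨F.1 ∪ G.1, F.2.1.union G.2.1, union_subset F.2.2 G.2.2⟩, ?_, ?_⟩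
    · refine Filter.principal_mono.2 ?_
      rintro y ⟨hy, h⟩
      exact ⟨hy, fun ⟨q, hq, hqy⟩ => h ⟨q, Or.inl hq, hqy⟩⟩
    · refine Filter.principal_mono.2 ?_
      rintro y ⟨hy, h⟩
      exact ⟨hy, fun ⟨q, hq, hqy⟩ => h ⟨q, Or.inr hq, hqy⟩⟩
  have hne : (iInf f).NeBot := by
    refine Filter.iInf_neBot_of_directed' hd ?_
    intro F
    refine Filter.principal_neBot_iff.2 ?_
    have := hcon F.1 F.2.1 F.2.2
    obtain ⟨y, hy, h⟩ := Set.not_subset.1 this
    exact ⟨y, hy, h⟩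
  have hmem : ∀ F : {F : Set P // F.Finite ∧ F ⊆ V},
      (K ∩ {y | ∃ q ∈ F.1, q ≤ y}ᶜ) ∈ Ultrafilter.of (iInf f) := by
    intro F
    refine Ultrafilter.of_le (iInf f) ?_
    exact Filter.mem_iInf_of_mem F (Filter.mem_principal_self _)
  have hKW : K ∈ Ultrafilter.of (iInf f) :=
    Filter.mem_of_superset (hmem ⟨∅, finite_empty, empty_subset _⟩) inter_subset_left
  obtain ⟨q, hqV, hq⟩ := ultra hP hK hV hKV _ hKW
  have h1 := hmem ⟨{q}, finite_singleton q, by simpa using hqV⟩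
  obtain ⟨y, hy⟩ := (Ultrafilter.of (iInf f)).nonempty_of_mem (Filter.inter_mem hq h1)
  exact hy.2.2 ⟨q, rfl, hy.1⟩

/-- Dense lower subsets of `A`. -/
def Dns (A b : Set P) : Prop :=
  IsLowerSet b ∧ b ⊆ A ∧ ∀ U, IsOpen U → (A ∩ U).Nonempty → (b ∩ U).Nonempty

theorem dns_ultra [LocallyCompactSpace P] (hP : WellFoundedLT P) {A : Set P}
    (hA : IsIrreducible A) (c : Set (Set P)) (hc : ∀ b ∈ c, Dns A b)
    (hch : IsChain (· ⊆ ·) c) (hcn : c.Nonempty) :
    ∃ W : Ultrafilter P, (∀ b ∈ c, b ∈ W) ∧ Dns A {q | Ici q ∈ W} := by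
  let f : {p : Set P × Set P // p.1 ∈ c ∧ IsOpen p.2 ∧ (A ∩ p.2).Nonempty} → Filter P :=
    fun p => Filter.principal (p.1.1 ∩ p.1.2)
  obtain ⟨b0, hb0⟩ := hcn
  have hAu : (A ∩ univ).Nonempty := by simpa using hA.1
  have : Nonempty {p : Set P × Set P // p.1 ∈ c ∧ IsOpen p.2 ∧ (A ∩ p.2).Nonempty} :=
    ⟨⟨(b0, univ), hb0, isOpen_univ, hAu⟩⟩
  have hd : Directed (· ≥ ·) f := by
    rintro ⟨⟨b, U⟩, hb, hU, hAU⟩ ⟨⟨b', U'⟩, hb', hU', hAU'⟩
    have hUU : (A ∩ (U ∩ U')).Nonempty := hA.2 U U' hU hU' hAU hAU'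
    rcases hch.total hb hb' with h | h
    · refine ⟨⟨(b, U ∩ U'), hb, hU.inter hU', hUU⟩, ?_, ?_⟩
      · refine Filter.principal_mono.2 ?_
        rintro y ⟨h1, h2, h3⟩
        exact ⟨h1, h2⟩
      · refine Filter.principal_mono.2 ?_
        rintro y ⟨h1, h2, h3⟩
        exact ⟨h h1, h3⟩
    · refine ⟨⟨(b', U ∩ U'), hb', hU.inter hU', hUU⟩, ?_, ?_⟩
      · refine Filter.principal_mono.2 ?_
        rintro y ⟨h1, h2, h3⟩
        exact ⟨h h1, h2⟩
      · refine Filter.principal_mono.2 ?_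
        rintro y ⟨h1, h2, h3⟩
        exact ⟨h1, h3⟩
  have hne : (iInf f).NeBot := by
    refine Filter.iInf_neBot_of_directed' hd ?_
    intro p
    exact Filter.principal_neBot_iff.2 ((hc _ p.2.1).2.2 _ p.2.2.1 p.2.2.2)
  have hmem : ∀ p : {p : Set P × Set P // p.1 ∈ c ∧ IsOpen p.2 ∧ (A ∩ p.2).Nonempty},
      (p.1.1 ∩ p.1.2) ∈ Ultrafilter.of (iInf f) := by
    intro p
    refine Ultrafilter.of_le (iInf f) ?_
    exact Filter.mem_iInf_of_mem p (Filter.mem_principal_self _)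
  have hb : ∀ b ∈ c, b ∈ Ultrafilter.of (iInf f) := by
    intro b hb
    exact Filter.mem_of_superset (hmem ⟨(b, univ), hb, isOpen_univ, hAu⟩) inter_subset_left
  have hsub : ∀ b ∈ c, {q | Ici q ∈ Ultrafilter.of (iInf f)} ⊆ b := by
    intro b hbc q hq
    obtain ⟨w, hw⟩ := (Ultrafilter.of (iInf f)).nonempty_of_mem (Filter.inter_mem hq (hb b hbc))
    exact (hc b hbc).1 hw.1 hw.2
  refine ⟨Ultrafilter.of (iInf f), hb, ?_, ?_, ?_⟩
  · intro q q' hqq hq
    exact Filter.mem_of_superset hq (Ici_subset_Ici.2 hqq)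
  · exact (hsub b0 hb0).trans (hc b0 hb0).2.1
  · intro U hU hAU
    obtain ⟨x, hxA, hxU⟩ := hAU
    obtain ⟨K, hK, hxK, hKU⟩ := exists_compact_subset hU hxU
    have h1 : K ∈ Ultrafilter.of (iInf f) := by
      refine Filter.mem_of_superset
        (hmem ⟨(b0, interior K), hb0, isOpen_interior, ⟨x, hxA, hxK⟩⟩) ?_
      exact inter_subset_right.trans interior_subset
    obtain ⟨q, hqU, hq⟩ := ultra hP hK hU hKU _ h1
    exact ⟨q, hq, hqU⟩

/-- **Let `P` be a directed complete poset whose Scott space is locally compact.  If `P` has no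
infinite strictly descending sequence (the order `<` is well-founded), then `P` is quasicontinuous
(every point `x` of an open set `U` lies in the interior of the upper set of a finite subset of
`U`) and its Scott space is sober.** -/
theorem result (P : Type u) [PartialOrder P] [TopologicalSpace P] [Topology.IsScott P Set.univ]
    (hdc : ∀ d : Set P, d.Nonempty → DirectedOn (· ≤ ·) d → ∃ x, IsLUB d x)
    (hlc : LocallyCompactSpace P) (hP : WellFoundedLT P) :
    (∀ (x : P) (U : Set P), IsOpen U → x ∈ U →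
      ∃ F : Set P, F.Finite ∧ F ⊆ U ∧ x ∈ interior {y | ∃ q ∈ F, q ≤ y}) ∧
    QuasiSober P ∧ T0Space P := by
  refine ⟨?_, ⟨?_⟩, inferInstance⟩
  · intro x U hU hx
    obtain ⟨K, hK, hxK, hKU⟩ := exists_compact_subset hU hx
    obtain ⟨F, hF, hFU, hKF⟩ := finite_cover hP hK hU hKU
    exact ⟨F, hF, hFU, interior_mono hKF hxK⟩
  · intro A hA hAc
    have hAlow : IsLowerSet A := Topology.IsScott.isLowerSet_of_isClosed hAc
    have hAself : Dns A A := ⟨hAlow, Subset.rfl, fun U _ h => h⟩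
    obtain ⟨m, hm⟩ := zorn_superset {b | Dns A b} (by
      intro c hc hch
      rcases c.eq_empty_or_nonempty with rfl | hcn
      · exact ⟨A, hAself, by simp⟩
      · obtain ⟨W, hW, hD⟩ := dns_ultra hP hA c hc hch hcn
        refine ⟨_, hD, ?_⟩
        intro b hb q hq
        obtain ⟨w, hw⟩ := W.nonempty_of_mem (Filter.inter_mem hq (hW b hb))
        exact (hc hb).1 hw.1 hw.2)
    have hmD : Dns A m := hm.prop
    obtain ⟨W, hW, hD⟩ := dns_ultra hP hA {m} (by simpa using hmD)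
      (IsChain.singleton) (singleton_nonempty m)
    have hmW : m ∈ W := hW m rfl
    have hsub : {q | Ici q ∈ W} ⊆ m := by
      intro q hq
      obtain ⟨w, hw⟩ := W.nonempty_of_mem (Filter.inter_mem hq hmW)
      exact hmD.1 hw.1 hw.2
    have heq : m ⊆ {q | Ici q ∈ W} := hm.le_of_le hD hsub
    have hmne : m.Nonempty := by
      obtain ⟨y, hy, _⟩ := hmD.2.2 univ isOpen_univ (by simpa using hA.1)
      exact ⟨y, hy⟩
    have hdir : DirectedOn (· ≤ ·) m := by
      intro p hp q hq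
      obtain ⟨z, hz⟩ := W.nonempty_of_mem
        (Filter.inter_mem (Filter.inter_mem (heq hp) (heq hq)) hmW)
      exact ⟨z, hz.2, hz.1.1, hz.1.2⟩
    obtain ⟨x, hx⟩ := hdc m hmne hdir
    have hxA : x ∈ A := by
      have h1 := hAc
      rw [Topology.IsScott.isClosed_iff_isLowerSet_and_dirSupClosed] at h1
      exact h1.2 hmD.2.1 hmne hdir hx
    refine ⟨x, ?_⟩
    have hcl : closure ({x} : Set P) = Iic x := Topology.IsScott.closure_singleton
    rw [IsGenericPoint, hcl]
    refine Subset.antisymm (fun y hy => hAlow hy hxA) ?_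
    intro y hy
    by_contra hyx
    have h2 : IsOpen ((Iic x)ᶜ) := by
      rw [← hcl]
      exact isClosed_closure.isOpen_compl
    obtain ⟨z, hz, hzx⟩ := hmD.2.2 _ h2 ⟨y, hy, hyx⟩
    exact hzx (hx.1 hz)

end Pool.Agent.Results.MP_dd23d5_gt.WellFoundedDcpo
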